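import Pool.Agent.Helper7.LY.Compl
import Pool.Agent.Helper7.LY.Numbers

/-!
# Lyubeznik numbers in equal and in mixed characteristic

For the completed Stanley-Reisner ring `R` over the field with two elements of a triangulation of
the Klein bottle with eight vertices, the Lyubeznik number with the indices `0`, `2` is two, and the
mixed characteristic Lyubeznik number with the same indices is one.
-/

set_option autoImplicit false

namespace Pool.Agent.Results.MP_52a0c0_ag.KleinBottle

open Pool.Agent.Helper7.LY

theorem result :
    ∃ (R : Type) (_ : CommRing R) (_ : IsLocalRing R), IsNoetherianRing R ∧ CharP R 2 ∧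
      IsLyubeznikNumber R 0 2 2 ∧ IsMixedLyubeznikNumber 2 R 0 2 1 := by
  have h : ∀ j, (kgens j).Nonempty := by decide +kernel
  refine ⟨SR kgens, inferInstance, local_SR kgens h, inferInstance, char_SR kgens h, ?_, ?_⟩
  · exact equal_number kgens h 2 2 (by norm_num) card_equal
  · exact mixed_number kgens h 2 1 (by norm_num) card_mixed

end Pool.Agent.Results.MP_52a0c0_ag.KleinBottle
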